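import Mathlib
import Pool.Agent.H916R3.CH.Main
import Pool.Agent.Helper292.ForceCH

set_option autoImplicit false
set_option maxSynthPendingDepth 6

/-!
# The statement `S` is not a theorem of ZFC: it fails under the continuum hypothesis

`Q = ℓ_∞ / c₀`. Let `W` be the space of the weak* limits of sequences of `Q` in the bidual of `Q`
(the first Baire class of `Q`), and `J : Q → W` the canonical embedding.

* There is no bounded linear map `R : W → Q` with `R ∘ J = id` (in ZFC, by an amplification argument
  with almost disjoint families).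
* `W` has at most `𝔠` elements, and every normed space with at most `ℵ₁` elements embeds
  isometrically in `Q` (a recursion of length `ω₁`). So under CH there is an isometric embedding
  `j : W → Q`.
* `Y = j (J Q)` is the required copy. If a subcopy `Z = j (J (S Q))`, `S : Q → Q`, were complemented
  in `Q` by a projection `P`, then `(j J S)⁻¹ ∘ P ∘ j ∘ S**` would be a bounded retraction of `W`
  onto `Q`; here it is used that the second adjoint `S**` maps `W` to `W`.
-/

namespace Pool.Agent.Results.MP_4890b1_an.NotATheorem

open Pool.Agent.H916R3.CH (Q IsCopy)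
open Pool.Agent.Helper292.ForceCH (OmegaOnePreserved CHHolds)

/-- The statement `S` of the problem: every copy `Y` of `ℓ_∞ / c₀` inside `ℓ_∞ / c₀` contains a copy
`Z` of `ℓ_∞ / c₀` which is complemented in the whole space `ℓ_∞ / c₀`. Here `Q` is `ℓ_∞ / c₀`,
`IsCopy Z` says that `Z` is a closed subspace linearly isomorphic to `ℓ_∞ / c₀`, and
`Z.ClosedComplemented` says that there is a bounded linear projection of `Q` onto `Z`. -/
def StatementS : Prop :=
  ∀ Y : Submodule ℝ Q, IsCopy Y → ∃ Z : Submodule ℝ Q, Z ≤ Y ∧ IsCopy Z ∧ Z.ClosedComplemented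

/-- (A) There is a notion of forcing all of whose conditions force that `ω₁` is preserved and that
the continuum hypothesis holds. (B) The continuum hypothesis implies that `S` is false: some copy
`Y` of `ℓ_∞ / c₀` inside `ℓ_∞ / c₀` contains no copy of `ℓ_∞ / c₀` that is complemented in
`ℓ_∞ / c₀`. -/
theorem result :
    (∃ (P : Type) (_ : Preorder P), Nonempty P ∧
      ∀ p : P, p ∈ OmegaOnePreserved P ∧ p ∈ CHHolds P) ∧
    (Cardinal.aleph.{0} 1 = Cardinal.continuum → ¬ StatementS) := by
  refine ⟨?_, fun hCH hS => ?_⟩
  · obtain ⟨P, hP, hne, h⟩ := Pool.Agent.Helper292.ForceCH.exists_forcing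
    exact ⟨P, hP, hne, fun p => ⟨(h p).1, (h p).2.2⟩⟩
  · obtain ⟨Y, hY, hno⟩ := Pool.Agent.H916R3.CH.main hCH
    obtain ⟨Z, hZY, hZ, hc⟩ := hS Y hY
    exact hno Z hZY hZ hc

end Pool.Agent.Results.MP_4890b1_an.NotATheorem
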